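import Pool.Agent.Lib.MSeq.Draw

/-!
# The misere monotonic sequence game with `d = 3`: complete solution

For all `a ≥ 3` and all deck sizes `n` the type of the empty board is determined. In particular
the first player wins for all large `n`.
-/

set_option autoImplicit false

namespace Pool.Agent.Results.MP_8af08b_co.MisereThree

open List Pool.Agent.Lib.MSeq

/-- type N: the first player has a winning strategy in the misere game on the deck `1, ..., n` -/
def FirstWins (a d n : ℕ) : Prop := ∃ k, MoverWins a d n k []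

/-- type P: the second player has a winning strategy in the misere game on the deck `1, ..., n` -/
def SecondWins (a d n : ℕ) : Prop := ∃ k, OtherWins a d n k []

theorem first_of {a n t : ℕ} (ha : 2 ≤ a) (ht : t < n)
    (h : Fam 0 (replicate (n - 1 - t) (a - 1)) (a - 2) t) : FirstWins a 3 n :=
  ⟨n + 1, mover_of_fam ha ht h (by omega)⟩

theorem second_of {a n : ℕ} (ha : 1 ≤ a) (h : Fam 0 [] (a - 1) n) : SecondWins a 3 n :=
  ⟨n, other_of_fam ha h (by omega)⟩

theorem not_first {a n : ℕ} (ha : 1 ≤ a) (h : 3 * n ≤ 4 * (a - 1) + 1) : ¬ FirstWins a 3 n := by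
  rintro ⟨k, hk⟩
  exact not_mover_of_saf ha (saf_nil h) hk

theorem not_second {a n : ℕ} (ha : 2 ≤ a) (h : 3 * n ≤ 4 * (a - 1) + 1) :
    ¬ SecondWins a 3 n := by
  rintro ⟨k, hk⟩
  rcases Nat.eq_zero_or_pos n with rfl | hn
  · obtain ⟨⟨e, he1, he2, -⟩, -⟩ := hk
    omega
  · rcases Nat.lt_or_ge (4 * (a - 2) + 1) (3 * (n - 1)) with h1 | h1
    · refine not_other_of_saf (t := n - 2) ha (by omega) ?_ hk
      have h2 : n - 1 - (n - 2) = 1 := by omega
      rw [h2]
      exact saf_one (by omega) (by omega) (by omega) (by omega)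
    · refine not_other_of_saf (t := n - 1) ha (by omega) ?_ hk
      have h2 : n - 1 - (n - 1) = 0 := by omega
      rw [h2]
      exact saf_nil (by omega)

theorem not_both' {a n : ℕ} (h1 : FirstWins a 3 n) (h2 : SecondWins a 3 n) : False := by
  obtain ⟨k, hk⟩ := h1
  obtain ⟨m, hm⟩ := h2
  exact not_both k m [] hk hm

theorem first0 (k n : ℕ) (hn : 4 * k + 4 ≤ n) : FirstWins (3 * k + 3) 3 n :=
  first_of (t := 4 * k + 1) (by omega) (by omega)
    (Fam.c _ _ _ _ _ k (by omega) (by omega) (by omega) rfl)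

theorem first1 (k n : ℕ) (hn : 4 * k + 6 ≤ n) : FirstWins (3 * k + 4) 3 n :=
  first_of (t := 4 * k + 3) (by omega) (by omega)
    (Fam.g _ _ _ _ _ k (by omega) (by omega) (by omega) rfl)

theorem first2 (k n : ℕ) (hn : n = 4 * k + 6 ∨ (4 * k + 9 ≤ n ∧ 10 ≤ n)) :
    FirstWins (3 * k + 5) 3 n := by
  rcases hn with hn | hn
  · refine first_of (t := n - 1) (by omega) (by omega) ?_
    have h1 : n - 1 - (n - 1) = 0 := by omega
    rw [h1]
    exact Fam.a1 _ _ _ (k + 1) (by omega) (by omega) (by omega)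
  · exact first_of (t := 4 * k + 6) (by omega) (by omega)
      (Fam.h _ _ _ _ _ (k + 1) (by omega) (by omega) (by omega) (by omega) (by omega)
        (by omega))

theorem second1 (k : ℕ) : SecondWins (3 * k + 4) 3 (4 * k + 5) :=
  second_of (by omega) (Fam.a1 _ _ _ (k + 1) (by omega) (by omega) (by omega))

theorem second2 (k n : ℕ) (hn : n = 4 * k + 7 ∨ n = 4 * k + 8 ∨ (k = 0 ∧ n = 9)) :
    SecondWins (3 * k + 5) 3 n := by
  rcases hn with rfl | rfl | ⟨rfl, rfl⟩
  · exact second_of (by omega) (Fam.a2 _ _ _ (k + 1) (by omega) (by omega) (by omega))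
  · exact second_of (by omega) (Fam.a3 _ _ _ (k + 1) (by omega) (by omega) (by omega))
  · exact second_of (by omega) (Fam.a4 _ _ _ rfl rfl)

theorem result (k n : ℕ) :
    ((FirstWins (3 * k + 3) 3 n ↔ 4 * k + 4 ≤ n) ∧ ¬ SecondWins (3 * k + 3) 3 n) ∧
    ((FirstWins (3 * k + 4) 3 n ↔ 4 * k + 6 ≤ n) ∧
      (SecondWins (3 * k + 4) 3 n ↔ n = 4 * k + 5)) ∧
    ((FirstWins (3 * k + 5) 3 n ↔ n = 4 * k + 6 ∨ (4 * k + 9 ≤ n ∧ 10 ≤ n)) ∧
      (SecondWins (3 * k + 5) 3 n ↔ n = 4 * k + 7 ∨ n = 4 * k + 8 ∨ (k = 0 ∧ n = 9))) := by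
  refine ⟨⟨⟨fun h => ?_, first0 k n⟩, fun h => ?_⟩, ⟨⟨fun h => ?_, first1 k n⟩, fun h => ?_, ?_⟩,
    ⟨⟨fun h => ?_, first2 k n⟩, fun h => ?_, second2 k n⟩⟩
  · by_contra hn
    exact not_first (by omega) (by omega) h
  · rcases Nat.lt_or_ge n (4 * k + 4) with hn | hn
    · exact not_second (by omega) (by omega) h
    · exact not_both' (first0 k n hn) h
  · by_contra hn
    rcases Nat.lt_or_ge n (4 * k + 5) with h1 | h1
    · exact not_first (by omega) (by omega) h
    · obtain rfl : n = 4 * k + 5 := by omega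
      exact not_both' h (second1 k)
  · by_contra hn
    rcases Nat.lt_or_ge n (4 * k + 5) with h1 | h1
    · exact not_second (by omega) (by omega) h
    · exact not_both' (first1 k n (by omega)) h
  · rintro rfl
    exact second1 k
  · by_contra hn
    rcases Nat.lt_or_ge n (4 * k + 6) with h1 | h1
    · exact not_first (by omega) (by omega) h
    · exact not_both' h (second2 k n (by omega))
  · by_contra hn
    rcases Nat.lt_or_ge n (4 * k + 6) with h1 | h1
    · exact not_second (by omega) (by omega) h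
    · exact not_both' (first2 k n (by omega)) h

end Pool.Agent.Results.MP_8af08b_co.MisereThree
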